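import Mathlib

/-!
# Jets of very well-covered uniform clutters

For every `d ≥ 3` there is a very well-covered `d`-uniform clutter on `2d` vertices whose
clutter of `1`-jets is not very well-covered.
-/

set_option autoImplicit false

namespace Pool.Agent.Results.MP_4ee39a_co.JetsFail

variable {X : Type} [DecidableEq X]

/-- `W` is a vertex cover of the family of edges `E`: it meets every edge. -/
def IsCover (E : Finset (Finset X)) (W : Finset X) : Prop :=
  ∀ e ∈ E, ∃ x ∈ e, x ∈ W

/-- `W` is a minimal vertex cover: no proper subset of `W` is a vertex cover. -/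
def IsMinCover (E : Finset (Finset X)) (W : Finset X) : Prop :=
  IsCover E W ∧ ∀ W' : Finset X, W' ⊂ W → ¬ IsCover E W'

/-- `E` is the edge set of a `d`-uniform clutter: every edge has exactly `d` elements and no edge
contains another one. -/
def IsUniformClutter (d : ℕ) (E : Finset (Finset X)) : Prop :=
  (∀ e ∈ E, e.card = d) ∧ ∀ e ∈ E, ∀ f ∈ E, e ⊆ f → e = f

/-- A `d`-uniform clutter on the finite vertex set `X` is very well-covered if every minimal vertex
cover `W` has exactly `|X| / d` elements, that is `d * |W| = |X|`. -/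
def VeryWellCovered [Fintype X] (d : ℕ) (E : Finset (Finset X)) : Prop :=
  IsUniformClutter d E ∧ ∀ W : Finset X, IsMinCover E W → d * W.card = Fintype.card X

/-- The clutter of `s`-jets. Its vertices are the pairs `(x, j)` with `x` a vertex and
`0 ≤ j ≤ s`; its edges are the sets `{(x, i x) : x ∈ e}` with `e` an edge and
`∑ x ∈ e, i x ≤ s`. -/
def jets [Fintype X] (s : ℕ) (E : Finset (Finset X)) : Finset (Finset (X × Fin (s + 1))) :=
  by
    classical
    exact Finset.univ.filter fun F => ∃ e ∈ E, ∃ i : X → Fin (s + 1),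
      ∑ x ∈ e, (i x : ℕ) ≤ s ∧ F = e.image fun x => (x, i x)

/-! ### The example -/

variable {d : ℕ}

/-- The core edge. -/
def core (d : ℕ) : Finset (Fin d ⊕ Fin d) := Finset.univ.image Sum.inl

/-- The core with vertex `i` replaced by its private vertex. -/
def pend (d : ℕ) (i : Fin d) : Finset (Fin d ⊕ Fin d) :=
  insert (Sum.inr i) ((core d).erase (Sum.inl i))

/-- The example clutter. -/
def ex (d : ℕ) : Finset (Finset (Fin d ⊕ Fin d)) :=
  insert (core d) (Finset.univ.image (pend d))

lemma mem_core_inl (i : Fin d) : Sum.inl i ∈ core d := by simp [core]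

lemma mem_core_inr (i : Fin d) : Sum.inr i ∉ core d := by simp [core]

lemma mem_pend_inl (i j : Fin d) : Sum.inl j ∈ pend d i ↔ j ≠ i := by simp [pend, core]

lemma mem_pend_inr (i j : Fin d) : Sum.inr j ∈ pend d i ↔ j = i := by simp [pend, core]

lemma mem_ex {e : Finset (Fin d ⊕ Fin d)} : e ∈ ex d ↔ e = core d ∨ ∃ i, e = pend d i := by
  simp [ex, eq_comm]

lemma card_core : (core d).card = d := by
  rw [core, Finset.card_image_of_injective _ Sum.inl_injective]
  simp

lemma card_pend (i : Fin d) : (pend d i).card = d := by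
  rw [pend, Finset.card_insert_of_notMem, Finset.card_erase_of_mem (mem_core_inl i), card_core]
  · have := i.2
    omega
  · simp [core]

lemma uniform : IsUniformClutter d (ex d) := by
  have hc : ∀ e ∈ ex d, e.card = d := by
    intro e he
    rcases mem_ex.1 he with rfl | ⟨i, rfl⟩
    · exact card_core
    · exact card_pend i
  refine ⟨hc, fun e he f hf hef => Finset.eq_of_subset_of_card_le hef ?_⟩
  rw [hc e he, hc f hf]

lemma cover_pair {i j : Fin d} (h : i ≠ j) : IsCover (ex d) {Sum.inl i, Sum.inl j} := by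
  intro e he
  rcases mem_ex.1 he with rfl | ⟨k, rfl⟩
  · exact ⟨Sum.inl i, mem_core_inl i, by simp⟩
  · by_cases hk : i = k
    · subst hk
      exact ⟨Sum.inl j, (mem_pend_inl _ _).2 h.symm, by simp⟩
    · exact ⟨Sum.inl i, (mem_pend_inl _ _).2 hk, by simp⟩

lemma cover_pend (i : Fin d) : IsCover (ex d) {Sum.inl i, Sum.inr i} := by
  intro e he
  rcases mem_ex.1 he with rfl | ⟨k, rfl⟩
  · exact ⟨Sum.inl i, mem_core_inl i, by simp⟩
  · by_cases hk : i = k
    · subst hk
      exact ⟨Sum.inr i, (mem_pend_inr _ _).2 rfl, by simp⟩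
    · exact ⟨Sum.inl i, (mem_pend_inl _ _).2 hk, by simp⟩

lemma eq_of_min {E : Finset (Finset X)} {W W' : Finset X} (h : IsMinCover E W) (hs : W' ⊆ W)
    (hc : IsCover E W') : W = W' := by
  by_contra hne
  exact h.2 W' (hs.ssubset_of_ne (Ne.symm hne)) hc

lemma vwc : VeryWellCovered d (ex d) := by
  refine ⟨uniform, fun W hW => ?_⟩
  obtain ⟨x, hx, hxW⟩ := hW.1 (core d) (mem_ex.2 (Or.inl rfl))
  obtain ⟨i, rfl⟩ : ∃ i, x = Sum.inl i := by
    rcases x with i | i
    · exact ⟨i, rfl⟩
    · exact absurd hx (mem_core_inr i)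
  obtain ⟨y, hy, hyW⟩ := hW.1 (pend d i) (mem_ex.2 (Or.inr ⟨i, rfl⟩))
  have hcard : W.card = 2 := by
    rcases y with j | j
    · have hj := (mem_pend_inl i j).1 hy
      rw [eq_of_min hW (W' := {Sum.inl i, Sum.inl j}) _ (cover_pair hj.symm)]
      · rw [Finset.card_pair]
        simpa using hj.symm
      · intro z hz
        simp only [Finset.mem_insert, Finset.mem_singleton] at hz
        rcases hz with rfl | rfl <;> assumption
    · obtain rfl := (mem_pend_inr i j).1 hy
      rw [eq_of_min hW (W' := {Sum.inl j, Sum.inr j}) _ (cover_pend j)]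
      · rw [Finset.card_pair]
        simp
      · intro z hz
        simp only [Finset.mem_insert, Finset.mem_singleton] at hz
        rcases hz with rfl | rfl <;> assumption
  rw [hcard]
  simp
  ring

/-- The three vertices of the small cover of the `1`-jets. -/
def small (a b c : Fin d) : Finset ((Fin d ⊕ Fin d) × Fin 2) :=
  {(Sum.inl a, 0), (Sum.inl b, 0), (Sum.inl c, 0)}

lemma mem_jets {s : ℕ} {X : Type} [DecidableEq X] [Fintype X] {E : Finset (Finset X)}
    {F : Finset (X × Fin (s + 1))} :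
    F ∈ jets s E ↔ ∃ e ∈ E, ∃ i : X → Fin (s + 1),
      ∑ x ∈ e, (i x : ℕ) ≤ s ∧ F = e.image fun x => (x, i x) := by
  simp [jets]

lemma two_of (e : Finset (Fin d ⊕ Fin d)) (he : e ∈ ex d) {a b c : Fin d} (hab : a ≠ b)
    (hac : a ≠ c) (hbc : b ≠ c) :
    ∃ u v : Fin d, u ≠ v ∧ Sum.inl u ∈ e ∧ Sum.inl v ∈ e ∧ (u = a ∨ u = b ∨ u = c) ∧
      (v = a ∨ v = b ∨ v = c) := by
  rcases mem_ex.1 he with rfl | ⟨k, rfl⟩
  · exact ⟨a, b, hab, mem_core_inl a, mem_core_inl b, by simp, by simp⟩
  · by_cases h1 : a = k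
    · subst h1
      exact ⟨b, c, hbc, (mem_pend_inl _ _).2 hab.symm, (mem_pend_inl _ _).2 hac.symm, by simp,
        by simp⟩
    · by_cases h2 : b = k
      · subst h2
        exact ⟨a, c, hac, (mem_pend_inl _ _).2 hab, (mem_pend_inl _ _).2 hbc.symm, by simp,
          by simp⟩
      · exact ⟨a, b, hab, (mem_pend_inl _ _).2 h1, (mem_pend_inl _ _).2 h2, by simp, by simp⟩

lemma small_cover {a b c : Fin d} (hab : a ≠ b) (hac : a ≠ c) (hbc : b ≠ c) :
    IsCover (jets 1 (ex d)) (small a b c) := by
  intro F hF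
  obtain ⟨e, he, i, hi, rfl⟩ := mem_jets.1 hF
  obtain ⟨u, v, huv, hu, hv, hu', hv'⟩ := two_of e he hab hac hbc
  have hsum : (i (Sum.inl u) : ℕ) + (i (Sum.inl v) : ℕ) ≤ 1 := by
    have hne : (Sum.inl u : Fin d ⊕ Fin d) ≠ Sum.inl v := fun h => huv (Sum.inl_injective h)
    calc (i (Sum.inl u) : ℕ) + (i (Sum.inl v) : ℕ)
        = ∑ x ∈ ({Sum.inl u, Sum.inl v} : Finset (Fin d ⊕ Fin d)), (i x : ℕ) := by
          rw [Finset.sum_pair hne]
      _ ≤ ∑ x ∈ e, (i x : ℕ) := by
          apply Finset.sum_le_sum_of_subset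
          intro z hz
          simp only [Finset.mem_insert, Finset.mem_singleton] at hz
          rcases hz with rfl | rfl <;> assumption
      _ ≤ 1 := hi
  have : i (Sum.inl u) = 0 ∨ i (Sum.inl v) = 0 := by
    rcases Nat.eq_zero_or_pos (i (Sum.inl u) : ℕ) with h | h
    · left
      exact Fin.ext h
    · right
      apply Fin.ext
      show (i (Sum.inl v) : ℕ) = 0
      omega
  rcases this with h | h
  · refine ⟨(Sum.inl u, 0), ?_, ?_⟩
    · rw [Finset.mem_image]
      exact ⟨Sum.inl u, hu, by rw [h]⟩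
    · rcases hu' with rfl | rfl | rfl <;> simp [small]
  · refine ⟨(Sum.inl v, 0), ?_, ?_⟩
    · rw [Finset.mem_image]
      exact ⟨Sum.inl v, hv, by rw [h]⟩
    · rcases hv' with rfl | rfl | rfl <;> simp [small]

/-- A set not containing `(u, 0)` or `(v, 0)` outside of which the only element is `(t, 0)`,
is not a cover. -/
lemma not_cover {u v : Fin d} {W : Finset ((Fin d ⊕ Fin d) × Fin 2)}
    (hW : ∀ z ∈ W, z = (Sum.inl u, 0) ∨ z = (Sum.inl v, 0)) : ¬ IsCover (jets 1 (ex d)) W := by
  intro h
  obtain ⟨z, hz, hzW⟩ := h ((pend d v).image fun x => (x, if x = Sum.inl u then (1 : Fin 2) else 0))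
    (mem_jets.2 ⟨pend d v, mem_ex.2 (Or.inr ⟨v, rfl⟩),
      fun x => if x = Sum.inl u then (1 : Fin 2) else 0, by
        have : ∀ x : Fin d ⊕ Fin d, ((if x = Sum.inl u then (1 : Fin 2) else 0 : Fin 2) : ℕ) =
            if x = Sum.inl u then 1 else 0 := by
          intro x
          split_ifs <;> rfl
        simp_rw [this]
        rw [Finset.sum_ite_eq']
        split_ifs <;> simp, rfl⟩)
  rw [Finset.mem_image] at hz
  obtain ⟨x, hx, rfl⟩ := hz
  rcases hW _ hzW with h1 | h1
  · rw [Prod.mk.injEq] at h1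
    obtain ⟨rfl, h2⟩ := h1
    simp at h2
  · rw [Prod.mk.injEq] at h1
    obtain ⟨rfl, -⟩ := h1
    exact (mem_pend_inl v v).1 hx rfl

lemma small_min {a b c : Fin d} (hab : a ≠ b) (hac : a ≠ c) (hbc : b ≠ c) :
    IsMinCover (jets 1 (ex d)) (small a b c) := by
  refine ⟨small_cover hab hac hbc, fun W' hW' => ?_⟩
  obtain ⟨hsub, z, hz, hzW⟩ := Finset.ssubset_iff_exists_subset_erase.1 hW' |>.elim
    (fun z hz => (⟨hW'.1, z, hz.1, fun h => (Finset.mem_erase.1 (hz.2 h)).1 rfl⟩ :
      W' ⊆ small a b c ∧ ∃ z ∈ small a b c, z ∉ W'))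
  have hmem : ∀ y ∈ W', y = (Sum.inl a, 0) ∨ y = (Sum.inl b, 0) ∨ y = (Sum.inl c, 0) := by
    intro y hy
    simpa [small] using hsub hy
  have hz' : z = (Sum.inl a, 0) ∨ z = (Sum.inl b, 0) ∨ z = (Sum.inl c, 0) := by
    simpa [small] using hz
  rcases hz' with rfl | rfl | rfl
  · apply not_cover (u := b) (v := c)
    intro y hy
    rcases hmem y hy with rfl | h | h
    · exact absurd hy hzW
    · exact Or.inl h
    · exact Or.inr h
  · apply not_cover (u := a) (v := c)
    intro y hy
    rcases hmem y hy with h | rfl | h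
    · exact Or.inl h
    · exact absurd hy hzW
    · exact Or.inr h
  · apply not_cover (u := a) (v := b)
    intro y hy
    rcases hmem y hy with h | h | rfl
    · exact Or.inl h
    · exact Or.inr h
    · exact absurd hy hzW

/-- For every `d ≥ 3` there is a very well-covered `d`-uniform clutter `E` on a vertex set `X` of
`2d` elements, every vertex of which lies in an edge, such that the clutter of its `1`-jets, whose
vertex set `X × {0, 1}` has `4d` elements, has a minimal vertex cover with a number of elements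
different from `4d / d = 4` (namely `3`). In particular the answer to the question is negative. -/
theorem result : ∀ d : ℕ, 3 ≤ d →
    ∃ (X : Type) (_ : DecidableEq X) (_ : Fintype X) (E : Finset (Finset X)),
      Fintype.card X = 2 * d ∧ (∀ x : X, ∃ e ∈ E, x ∈ e) ∧ VeryWellCovered d E ∧
        ∃ W : Finset (X × Fin (1 + 1)), IsMinCover (jets 1 E) W ∧
          d * W.card ≠ Fintype.card (X × Fin (1 + 1)) := by
  intro d hd
  refine ⟨Fin d ⊕ Fin d, inferInstance, inferInstance, ex d, ?_, ?_, vwc, ?_⟩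
  · simp
    ring
  · rintro (i | i)
    · exact ⟨core d, mem_ex.2 (Or.inl rfl), mem_core_inl i⟩
    · exact ⟨pend d i, mem_ex.2 (Or.inr ⟨i, rfl⟩), (mem_pend_inr i i).2 rfl⟩
  · let a : Fin d := ⟨0, by omega⟩
    let b : Fin d := ⟨1, by omega⟩
    let c : Fin d := ⟨2, by omega⟩
    have hab : a ≠ b := by simp [a, b]
    have hac : a ≠ c := by simp [a, c]
    have hbc : b ≠ c := by simp [b, c]
    refine ⟨small a b c, small_min hab hac hbc, fun h1 => ?_⟩
    have h2 : (small a b c).card = 3 := by
      rw [small, Finset.card_insert_of_notMem, Finset.card_pair]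
      · simpa using hbc
      · simp only [Finset.mem_insert, Finset.mem_singleton, Prod.mk.injEq, not_or]
        exact ⟨fun h => hab (Sum.inl_injective h.1), fun h => hac (Sum.inl_injective h.1)⟩
    rw [h2] at h1
    simp at h1
    omega

end Pool.Agent.Results.MP_4ee39a_co.JetsFail
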